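import Mathlib
import Pool.Agent.TH863.D.Struct
import Pool.Agent.Q15.SP.Fin

/-!
The first case of `b ^ q + y ^ p = x ^ p` with an even exponent `q`: all prime divisors of `b` lie in a
set of primes of density at most `3 / 4`.
-/

set_option autoImplicit false

namespace Pool.Agent.Q15.FE

open Finset Real Polynomial Pool.Agent.TH863 Pool.Agent.Q15.SP
open scoped ArithmeticFunction.vonMangoldt

/-- the class of primes -/
def GF (p l : ℕ) : Prop := l % p = 1 ∨ (l ≠ p ∧ IsSquare ((p : ℕ) : ZMod l))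

theorem cls {p q x y b : ℕ} (hp : p.Prime) (hp2 : p ≠ 2) (hq : Even q) (hq1 : 1 ≤ q)
    (hxy : Nat.Coprime x y) (hb : 0 < b) (hpb : ¬ p ∣ b) (h : b ^ q + y ^ p = x ^ p) :
    AllG (GF p) b := by
  have hp3 : 3 ≤ p := by
    have := hp.two_le
    omega
  have hodd : Odd p := hp.odd_of_ne_two hp2
  have hlt : y < x := by
    have h0 : 0 < b ^ q := by positivity
    have h1 : y ^ p < x ^ p := by omega
    exact lt_of_pow_lt_pow_left₀ p (Nat.zero_le _) h1
  have hco : IsCoprime (x : ℤ) (y : ℤ) := Nat.isCoprime_iff_coprime.2 hxy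
  have hd : (0 : ℤ) < (x : ℤ) - (y : ℤ) := by
    have : (y : ℤ) < x := by exact_mod_cast hlt
    omega
  have heq : (x : ℤ) ^ p - (y : ℤ) ^ p = (b : ℤ) ^ q := by
    have : ((b ^ q + y ^ p : ℕ) : ℤ) = ((x ^ p : ℕ) : ℤ) := by rw [h]
    push_cast at this
    linarith
  obtain ⟨b1, b2, e, he, hb12, hcop, hb1, hb2, hD, hG, he1, he0, hpb2, hone⟩ :=
    split hp hp2 hco hb hq1 hd heq
  have he0' : e = 0 := by
    by_contra hc
    have h1 : e = 1 := by omega
    exact hpb ((he1 h1).trans (hb12 ▸ Dvd.intro _ rfl))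
  rw [he0', pow_zero, one_mul] at hD hG
  intro l hl hlb
  rw [hb12] at hlb
  rcases hl.dvd_mul.1 hlb with hlb1 | hlb2
  · right
    have hlp : l ≠ p := by
      rintro rfl
      exact hpb (hlb1.trans (hb12 ▸ Dvd.intro _ rfl))
    refine ⟨hlp, ?_⟩
    have : Fact l.Prime := ⟨hl⟩
    have hld : (l : ℤ) ∣ (x : ℤ) - y := by
      rw [hD]
      exact dvd_pow (Int.natCast_dvd_natCast.2 hlb1) (by omega)
    have hxy' : ((x : ℤ) : ZMod l) = ((y : ℤ) : ZMod l) := by
      have h1 := (ZMod.intCast_zmod_eq_zero_iff_dvd ((x : ℤ) - y) l).2 hld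
      push_cast at h1
      push_cast
      exact sub_eq_zero.1 h1
    have hx0 : ((x : ℕ) : ZMod l) ≠ 0 := by
      intro hx
      have hy : ((y : ℕ) : ZMod l) = 0 := by
        push_cast at hxy'
        rw [← hxy']
        exact hx
      rw [ZMod.natCast_eq_zero_iff] at hx hy
      exact hl.not_dvd_one (hxy ▸ Nat.dvd_gcd hx hy)
    have hc := Pool.Agent.TH863.D.GG_cong (p := p) hxy'
    rw [hG] at hc
    push_cast at hc
    obtain ⟨k, hk⟩ := hq
    obtain ⟨j, hj⟩ := hodd
    have hpj : p - 1 = j + j := by omega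
    rw [hpj, hk] at hc
    refine ⟨(b2 : ZMod l) ^ k * ((x : ZMod l) ^ j)⁻¹, ?_⟩
    have e2 : (x : ZMod l) ^ j * ((x : ZMod l) ^ j)⁻¹ = 1 := mul_inv_cancel₀ (pow_ne_zero _ hx0)
    calc ((p : ℕ) : ZMod l) = (p : ZMod l) * ((x : ZMod l) ^ j * ((x : ZMod l) ^ j)⁻¹) ^ 2 := by
          rw [e2, one_pow, mul_one]
      _ = ((p : ZMod l) * (x : ZMod l) ^ (j + j)) * (((x : ZMod l) ^ j)⁻¹) ^ 2 := by ring
      _ = (b2 : ZMod l) ^ (k + k) * (((x : ZMod l) ^ j)⁻¹) ^ 2 := by rw [← hc]
      _ = _ := by ring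
  · exact Or.inl (hone l hl hlb2)

lemma irr_sq {p : ℕ} (hp : p.Prime) : Irreducible (X ^ 2 - C (p : ℤ) : ℤ[X]) := by
  have hm : (X ^ 2 - C (p : ℤ) : ℤ[X]).Monic := monic_X_pow_sub_C _ (by norm_num)
  have hdeg : (X ^ 2 - C (p : ℤ) : ℤ[X]).natDegree = 2 := natDegree_X_pow_sub_C
  rw [hm.irreducible_iff_roots_eq_zero_of_degree_le_three (by rw [hdeg]) (by rw [hdeg]; norm_num)]
  rw [Multiset.eq_zero_iff_forall_notMem]
  intro z hz
  rw [mem_roots hm.ne_zero, IsRoot.def] at hz
  simp only [eval_sub, eval_pow, eval_X, eval_C] at hz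
  apply (Nat.prime_iff_prime_int.1 hp).irreducible.not_isSquare
  exact ⟨z, by rw [← sq]; linarith⟩

/-- the primes modulo which `p` is a square -/
theorem sq_mert {p : ℕ} (hp : p.Prime) : ∃ C : ℝ, 0 ≤ C ∧ ∀ N : ℕ, 3 ≤ N → ∀ T : Finset ℕ,
    (∀ l ∈ T, l.Prime ∧ l ≤ N ∧ l ≠ p ∧ IsSquare ((p : ℕ) : ZMod l)) →
    ∑ l ∈ T, (1 : ℝ) / l ≤ 1 / 2 * Real.log (Real.log N) + C := by
  classical
  obtain ⟨K, hK, h⟩ := Pool.Agent.H474R2.GE.mertens_rho (X ^ 2 - C (p : ℤ)) (irr_sq hp)
    (by rw [natDegree_X_pow_sub_C]; norm_num)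
  refine ⟨K / 2 + 1, by positivity, fun N hN T hT => ?_⟩
  have h1 := (abs_le.1 (h N (by exact_mod_cast hN))).2
  rw [← Finset.sum_filter_add_sum_filter_not T (fun l : ℕ => l = 2)]
  have h2 : ∑ l ∈ T.filter (fun l : ℕ => l = 2), (1 : ℝ) / l ≤ 1 := by
    calc ∑ l ∈ T.filter (fun l : ℕ => l = 2), (1 : ℝ) / l ≤ ∑ l ∈ ({2} : Finset ℕ), (1 : ℝ) / l := by
          apply Finset.sum_le_sum_of_subset_of_nonneg
          · intro l hl
            rw [Finset.mem_filter] at hl
            rw [Finset.mem_singleton]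
            exact hl.2
          · intro l _ _
            positivity
      _ ≤ 1 := by
          rw [Finset.sum_singleton]
          norm_num
  have h3 : 2 * ∑ l ∈ T.filter (fun l : ℕ => ¬ l = 2), (1 : ℝ) / l ≤ Pool.Agent.H474R2.PG.Sg
      (Pool.Agent.H474R2.PG.rho (X ^ 2 - C (p : ℤ))) N := by
    unfold Pool.Agent.H474R2.PG.Sg Pool.Agent.H474R2.PG.PR
    rw [Nat.floor_natCast, Finset.mul_sum]
    calc ∑ l ∈ T.filter (fun l : ℕ => ¬ l = 2), 2 * ((1 : ℝ) / l) ≤
        ∑ l ∈ T.filter (fun l : ℕ => ¬ l = 2),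
          (Pool.Agent.H474R2.PG.rho (X ^ 2 - C (p : ℤ)) l : ℝ) / l := by
          refine Finset.sum_le_sum fun l hl => ?_
          rw [Finset.mem_filter] at hl
          obtain ⟨hl1, hl2, hl3, s, hs⟩ := hT l hl.1
          have : Fact l.Prime := ⟨hl1⟩
          rw [mul_one_div]
          apply div_le_div_of_nonneg_right _ (Nat.cast_nonneg l)
          have hs0 : s ≠ 0 := by
            rintro rfl
            rw [mul_zero, ZMod.natCast_eq_zero_iff] at hs
            exact hl3 ((Nat.prime_dvd_prime_iff_eq hl1 hp).1 hs)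
          have hss : s ≠ -s := by
            intro h0
            have h4 : (2 : ZMod l) * s = 0 := by
              rw [two_mul]
              nth_rewrite 2 [h0]
              exact add_neg_cancel s
            rcases mul_eq_zero.1 h4 with h5 | h5
            · have h6 : ((2 : ℕ) : ZMod l) = 0 := by exact_mod_cast h5
              rw [ZMod.natCast_eq_zero_iff] at h6
              exact hl.2 ((Nat.prime_dvd_prime_iff_eq hl1 Nat.prime_two).1 h6)
            · exact hs0 h5
          have hroot : ∀ z : ZMod l, z * z = ((p : ℕ) : ZMod l) →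
              z.val ∈ (Finset.range l).filter (fun a : ℕ => (l : ℤ) ∣ (X ^ 2 - C (p : ℤ)).eval (a : ℤ)) := by
            intro z hz
            rw [Finset.mem_filter, Finset.mem_range]
            refine ⟨ZMod.val_lt z, ?_⟩
            rw [← ZMod.intCast_zmod_eq_zero_iff_dvd]
            simp only [eval_sub, eval_pow, eval_X, eval_C]
            push_cast
            rw [ZMod.natCast_zmod_val, sq, hz, sub_self]
          have hne : s.val ≠ (-s).val := fun h0 => hss (ZMod.val_injective l h0)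
          have h5 : ({s.val, (-s).val} : Finset ℕ) ⊆
              (Finset.range l).filter (fun a : ℕ => (l : ℤ) ∣ (X ^ 2 - C (p : ℤ)).eval (a : ℤ)) := by
            intro a ha
            rw [Finset.mem_insert, Finset.mem_singleton] at ha
            rcases ha with rfl | rfl
            · exact hroot s hs.symm
            · exact hroot (-s) (by rw [neg_mul_neg]; exact hs.symm)
          have h6 := Finset.card_le_card h5
          rw [Finset.card_pair hne] at h6
          unfold Pool.Agent.H474R2.PG.rho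
          exact_mod_cast h6
      _ ≤ _ := by
          apply Finset.sum_le_sum_of_subset_of_nonneg
          · intro l hl
            rw [Finset.mem_filter] at hl
            obtain ⟨hl1, hl2, _⟩ := hT l hl.1
            exact Finset.mem_filter.2 ⟨Finset.mem_Icc.2 ⟨hl1.one_le, hl2⟩, hl1⟩
          · intro l _ _
            positivity
  linarith

end Pool.Agent.Q15.FE
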