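import Mathlib
import Pool.Agent.Q15.FE.Cls

/-!
The class of primes has density at most `3 / 4`; sets of integers composed of these primes.
-/

set_option autoImplicit false

namespace Pool.Agent.Q15.FE

open Finset Real Polynomial Pool.Agent.Q15.SP
open Pool.Agent.H474R2.PG (rho Sg PR)
open scoped ArithmeticFunction.vonMangoldt

/-- primes `≡ 1` modulo `12` -/
def V12 (N : ℕ) : Finset ℕ := (Icc 1 N).filter (fun l => l.Prime ∧ l % 12 = 1)

lemma rho12 {l : ℕ} (hl : l.Prime) (h2 : l ≠ 2) (h3 : l ≠ 3) (h : rho (cyclotomic 12 ℤ) l ≠ 0) :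
    l % 12 = 1 := by
  have : Fact l.Prime := ⟨hl⟩
  unfold rho at h
  rw [Finset.card_ne_zero] at h
  obtain ⟨a, ha⟩ := h
  rw [Finset.mem_filter] at ha
  have h12 : ((12 : ℕ) : ZMod l) ≠ 0 := by
    intro h0
    rw [ZMod.natCast_eq_zero_iff] at h0
    have h4 : l ∣ 2 * (2 * 3) := by simpa using h0
    rcases hl.dvd_mul.1 h4 with h5 | h5
    · exact h2 ((Nat.prime_dvd_prime_iff_eq hl Nat.prime_two).1 h5)
    rcases hl.dvd_mul.1 h5 with h6 | h6
    · exact h2 ((Nat.prime_dvd_prime_iff_eq hl Nat.prime_two).1 h6)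
    · exact h3 ((Nat.prime_dvd_prime_iff_eq hl Nat.prime_three).1 h6)
  have : NeZero ((12 : ℕ) : ZMod l) := ⟨h12⟩
  have h5 : IsRoot (cyclotomic 12 (ZMod l)) ((a : ℕ) : ZMod l) := by
    rw [IsRoot.def, ← map_cyclotomic 12 (Int.castRingHom (ZMod l))]
    have h6 := (ZMod.intCast_zmod_eq_zero_iff_dvd _ l).2 ha.2
    have h7 : ((a : ℕ) : ZMod l) = ((a : ℤ) : ZMod l) := by push_cast; rfl
    rw [h7, eval_intCast_map]
    simpa using h6
  have h6 : IsPrimitiveRoot ((a : ℕ) : ZMod l) 12 := isRoot_cyclotomic_iff.1 h5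
  have h7 : ((a : ℕ) : ZMod l) ≠ 0 := h6.ne_zero (by norm_num)
  have h8 : 12 ∣ l - 1 := by
    rw [h6.eq_orderOf]
    exact orderOf_dvd_of_pow_eq_one (ZMod.pow_card_sub_one_eq_one h7)
  have := hl.two_le
  omega

lemma rho12_le {l : ℕ} (hl : l.Prime) (h12 : l % 12 = 1) : rho (cyclotomic 12 ℤ) l ≤ 4 := by
  classical
  have : Fact l.Prime := ⟨hl⟩
  have h1 : rho (cyclotomic 12 ℤ) l ≤ (cyclotomic 12 (ZMod l)).roots.toFinset.card := by
    unfold rho
    apply Finset.card_le_card_of_injOn (fun a : ℕ => ((a : ℕ) : ZMod l))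
    · intro a ha
      rw [Finset.mem_coe, Finset.mem_filter] at ha
      rw [Finset.mem_coe, Multiset.mem_toFinset, mem_roots (cyclotomic_ne_zero 12 _), IsRoot.def,
        ← map_cyclotomic 12 (Int.castRingHom (ZMod l))]
      have h6 := (ZMod.intCast_zmod_eq_zero_iff_dvd _ l).2 ha.2
      have h7 : ((a : ℕ) : ZMod l) = ((a : ℤ) : ZMod l) := by push_cast; rfl
      show eval ((a : ℕ) : ZMod l) (Polynomial.map (Int.castRingHom (ZMod l)) (cyclotomic 12 ℤ)) = 0
      rw [h7, eval_intCast_map]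
      simpa using h6
    · intro a ha b hb hab
      rw [Finset.mem_coe, Finset.mem_filter, Finset.mem_range] at ha hb
      have h7 := (ZMod.natCast_eq_natCast_iff' a b l).1 hab
      rwa [Nat.mod_eq_of_lt ha.1, Nat.mod_eq_of_lt hb.1] at h7
  have h2 : (cyclotomic 12 (ZMod l)).roots.toFinset.card ≤ (cyclotomic 12 (ZMod l)).natDegree :=
    (Multiset.toFinset_card_le _).trans (card_roots' _)
  rw [natDegree_cyclotomic] at h2
  have h3 : Nat.totient 12 = 4 := by decide
  omega

theorem low12 : ∃ C : ℝ, 0 ≤ C ∧ ∀ N : ℕ, 3 ≤ N →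
    1 / 4 * Real.log (Real.log N) - C ≤ ∑ l ∈ V12 N, (1 : ℝ) / l := by
  classical
  obtain ⟨C, hC, h⟩ := Pool.Agent.H474R2.GE.mertens_rho (cyclotomic 12 ℤ)
    (cyclotomic.irreducible (by norm_num)) (by
      rw [natDegree_cyclotomic]
      exact Nat.totient_pos.2 (by norm_num))
  refine ⟨C / 4 + 1, by positivity, fun N hN => ?_⟩
  have h1 := (abs_le.1 (h N (by exact_mod_cast hN))).1
  have h2 : Sg (rho (cyclotomic 12 ℤ)) N ≤ 4 * ∑ l ∈ V12 N, (1 : ℝ) / l + 2 := by
    unfold Sg PR
    rw [Nat.floor_natCast, ← Finset.sum_filter_add_sum_filter_not _ (fun l : ℕ => l = 2 ∨ l = 3)]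
    have h3 : ∑ l ∈ ((Icc 1 N).filter Nat.Prime).filter (fun l : ℕ => l = 2 ∨ l = 3),
        (rho (cyclotomic 12 ℤ) l : ℝ) / l ≤ 2 := by
      calc _ ≤ ∑ l ∈ ({2, 3} : Finset ℕ), (rho (cyclotomic 12 ℤ) l : ℝ) / l := by
            apply Finset.sum_le_sum_of_subset_of_nonneg
            · intro l hl
              rw [Finset.mem_filter] at hl
              rw [Finset.mem_insert, Finset.mem_singleton]
              exact hl.2
            · intro l _ _
              positivity
        _ ≤ ∑ l ∈ ({2, 3} : Finset ℕ), (1 : ℝ) := by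
            refine Finset.sum_le_sum fun l hl => ?_
            have hl0 : (0 : ℝ) < l := by
              rw [Finset.mem_insert, Finset.mem_singleton] at hl
              rcases hl with rfl | rfl <;> norm_num
            rw [div_le_one hl0]
            exact_mod_cast Pool.Agent.H474R2.PG.rho_le_self (cyclotomic 12 ℤ) l
        _ = 2 := by
            rw [Finset.sum_pair (by norm_num)]
            norm_num
    have h4 : ∑ l ∈ ((Icc 1 N).filter Nat.Prime).filter (fun l : ℕ => ¬ (l = 2 ∨ l = 3)),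
        (rho (cyclotomic 12 ℤ) l : ℝ) / l ≤ 4 * ∑ l ∈ V12 N, (1 : ℝ) / l := by
      rw [Finset.mul_sum]
      calc _ = ∑ l ∈ (((Icc 1 N).filter Nat.Prime).filter (fun l : ℕ => ¬ (l = 2 ∨ l = 3))).filter
            (fun l => rho (cyclotomic 12 ℤ) l ≠ 0), (rho (cyclotomic 12 ℤ) l : ℝ) / l := by
            symm
            apply Finset.sum_filter_of_ne
            intro l _ hne h0
            apply hne
            rw [h0]
            simp
        _ ≤ ∑ l ∈ (((Icc 1 N).filter Nat.Prime).filter (fun l : ℕ => ¬ (l = 2 ∨ l = 3))).filter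
            (fun l => rho (cyclotomic 12 ℤ) l ≠ 0), 4 * ((1 : ℝ) / l) := by
            refine Finset.sum_le_sum fun l hl => ?_
            rw [Finset.mem_filter, Finset.mem_filter, Finset.mem_filter, not_or] at hl
            rw [mul_one_div]
            apply div_le_div_of_nonneg_right _ (Nat.cast_nonneg l)
            exact_mod_cast rho12_le hl.1.1.2 (rho12 hl.1.1.2 hl.1.2.1 hl.1.2.2 hl.2)
        _ ≤ _ := by
            apply Finset.sum_le_sum_of_subset_of_nonneg
            · intro l hl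
              rw [Finset.mem_filter, Finset.mem_filter, Finset.mem_filter, not_or] at hl
              rw [V12, Finset.mem_filter]
              exact ⟨hl.1.1.1, hl.1.1.2, rho12 hl.1.1.2 hl.1.2.1 hl.1.2.2 hl.2⟩
            · intro l _ _
              positivity
    linarith
  linarith

/-- the class has density at most `3 / 4` -/
theorem class_mert {p : ℕ} (hp : p.Prime) (hp2 : p ≠ 2) : ∃ C : ℝ, 0 ≤ C ∧ ∀ N : ℕ, 3 ≤ N →
    ∀ T : Finset ℕ, (∀ l ∈ T, l.Prime ∧ l ≤ N ∧ GF p l) →
    ∑ l ∈ T, (1 : ℝ) / l ≤ 3 / 4 * Real.log (Real.log N) + C := by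
  classical
  obtain ⟨C1, hC1, h1⟩ := mert (n := p) hp.pos
  obtain ⟨C2, hC2, h2⟩ := sq_mert hp
  obtain ⟨C3, hC3, h3⟩ := low12
  have hp3 : 3 ≤ p := by
    have := hp.two_le
    omega
  refine ⟨C1 + C2 + C3, by positivity, fun N hN T hT => ?_⟩
  have hll : 0 ≤ Real.log (Real.log N) := Real.log_nonneg (log_ge_one hN)
  rw [← Finset.sum_filter_add_sum_filter_not T (fun l : ℕ => l % p = 1)]
  have h4 := h1 N hN (T.filter (fun l : ℕ => l % p = 1)) (fun l hl => by
    rw [Finset.mem_filter] at hl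
    obtain ⟨h5, h6, _⟩ := hT l hl.1
    refine ⟨h5, h6, ?_⟩
    rw [Nat.mod_eq_of_lt hp.one_lt]
    exact hl.2)
  rw [Nat.totient_prime hp, Nat.cast_sub hp.one_le, Nat.cast_one] at h4
  have hU : ∀ l ∈ T.filter (fun l : ℕ => ¬ l % p = 1),
      l.Prime ∧ l ≤ N ∧ l ≠ p ∧ IsSquare ((p : ℕ) : ZMod l) := by
    intro l hl
    rw [Finset.mem_filter] at hl
    obtain ⟨h5, h6, h7⟩ := hT l hl.1
    exact ⟨h5, h6, (h7.resolve_left hl.2).1, (h7.resolve_left hl.2).2⟩
  rcases Nat.lt_or_ge p 5 with h5 | h5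
  · -- `p = 3`
    have hp3' : p = 3 := by
      rcases (by omega : p = 3 ∨ p = 4) with h6 | h6
      · exact h6
      · rw [h6] at hp
        exact absurd hp (by norm_num)
    subst hp3'
    have hdisj : Disjoint (T.filter (fun l : ℕ => ¬ l % 3 = 1)) (V12 N) := by
      rw [Finset.disjoint_left]
      intro l hl hl'
      rw [Finset.mem_filter] at hl
      rw [V12, Finset.mem_filter] at hl'
      apply hl.2
      omega
    have h6 := h2 N hN (T.filter (fun l : ℕ => ¬ l % 3 = 1) ∪ V12 N) (fun l hl => by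
      rw [Finset.mem_union] at hl
      rcases hl with hl | hl
      · exact hU l hl
      · rw [V12, Finset.mem_filter, Finset.mem_Icc] at hl
        obtain ⟨⟨h7, h8⟩, h9, h10⟩ := hl
        have : Fact l.Prime := ⟨h9⟩
        have : Fact (Nat.Prime 3) := ⟨Nat.prime_three⟩
        refine ⟨h9, h8, by omega, ?_⟩
        rw [ZMod.exists_sq_eq_prime_iff_of_mod_four_eq_one (p := l) (q := 3) (by omega) (by norm_num)]
        have h11 : ((l : ℕ) : ZMod 3) = 1 := by
          have : l ≡ 1 [MOD 3] := by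
            unfold Nat.ModEq
            omega
          have h12 := (ZMod.natCast_eq_natCast_iff l 1 3).2 this
          rw [h12]
          norm_num
        rw [h11]
        exact IsSquare.one)
    rw [Finset.sum_union hdisj] at h6
    have h7 := h3 N hN
    norm_num at h4
    have h4' : ∑ l ∈ T.filter (fun l : ℕ => l % 3 = 1), (1 : ℝ) / l ≤
        1 / 2 * Real.log (Real.log N) + C1 := by
      simpa using h4
    linarith
  · have h6 := h2 N hN _ hU
    have h7 : 1 / ((p : ℝ) - 1) ≤ 1 / 4 := by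
      apply one_div_le_one_div_of_le (by norm_num)
      have : (5 : ℝ) ≤ p := by exact_mod_cast h5
      linarith
    have h8 := mul_le_mul_of_nonneg_right h7 hll
    linarith

/-- integers composed of the primes of the class -/
theorem class_count {p : ℕ} (hp : p.Prime) (hp2 : p ≠ 2) : ∃ C : ℝ, 0 ≤ C ∧ ∀ N : ℕ, 3 ≤ N →
    ((FQ (AllG (GF p)) N).card : ℝ) ≤ C * (N / Real.log N ^ (1 / 4 : ℝ)) := by
  classical
  obtain ⟨C1, hC1, hm⟩ := class_mert hp hp2
  have hK : 0 ≤ Real.log 4 + 4 := by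
    have : 0 ≤ Real.log 4 := Real.log_nonneg (by norm_num)
    linarith
  have hblock : ∀ N : ℕ, 4 ≤ N → ((FQ (fun b => N < 2 * b ∧ AllG (GF p) b) N).card : ℝ) ≤
      2 * ((Real.log 4 + 4) * Real.exp (C1 + 1)) * (N / Real.log N ^ (1 / 4 : ℝ)) := by
    intro N hN
    have hN3 : 3 ≤ N := by omega
    have hlog := log_ge_one hN3
    have hl0 : 0 < Real.log N := by linarith
    have hNR : (4 : ℝ) ≤ N := by exact_mod_cast hN
    have hN0 : (0 : ℝ) < N := by linarith
    have hS : ∑ m ∈ SG (GF p) N, (1 : ℝ) / m ≤ Real.exp (C1 + 1) * Real.log N ^ (3 / 4 : ℝ) := by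
      have h1 := eulerG (GF p) N (S := 3 / 4 * Real.log (Real.log N) + C1) (hm N hN3)
      rw [add_assoc, exp_ll hl0] at h1
      exact h1
    have h := lam (G := GF p) (N := N) (W := {1}) (E := FQ (fun b => N < 2 * b ∧ AllG (GF p) b) N)
      (L := 1 / 2 * Real.log N) (fun w hw => by
        rw [Finset.mem_singleton] at hw
        rw [hw]) hK (cheb (GF p)) (by
        intro b hb
        rw [mem_FQ] at hb
        obtain ⟨⟨hb1, hbN⟩, hN2, hG⟩ := hb
        refine ⟨hbN, 1, Finset.mem_singleton_self 1, b, (one_mul b).symm, hb1, hG, ?_⟩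
        have hbR : (0 : ℝ) < b := by exact_mod_cast hb1
        have h1 : (N : ℝ) ≤ (b : ℝ) ^ 2 := by
          have h2 : (N : ℝ) < 2 * b := by exact_mod_cast hN2
          nlinarith
        have h2 := Real.log_le_log hN0 h1
        rw [Real.log_pow] at h2
        push_cast at h2
        linarith)
    have h1 : ∑ w ∈ ({1} : Finset ℕ), (1 : ℝ) / w = 1 := by
      rw [Finset.sum_singleton]
      norm_num
    rw [h1, mul_one] at h
    have h2 := h.trans (mul_le_mul_of_nonneg_left hS (by positivity))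
    have h3 : ((FQ (fun b => N < 2 * b ∧ AllG (GF p) b) N).card : ℝ) ≤
        (Real.log 4 + 4) * N * (Real.exp (C1 + 1) * Real.log N ^ (3 / 4 : ℝ)) /
          (1 / 2 * Real.log N) := by
      rw [le_div_iff₀ (by positivity)]
      exact h2
    refine h3.trans ?_
    have h4 : (Real.log 4 + 4) * N * (Real.exp (C1 + 1) * Real.log N ^ (3 / 4 : ℝ)) /
          (1 / 2 * Real.log N) = 2 * ((Real.log 4 + 4) * Real.exp (C1 + 1)) *
          (N * (Real.log N ^ (3 / 4 : ℝ) / Real.log N)) := by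
      field_simp
    rw [h4]
    apply mul_le_mul_of_nonneg_left _ (by positivity)
    rw [div_eq_mul_one_div (N : ℝ)]
    apply mul_le_mul_of_nonneg_left _ hN0.le
    exact rp hlog (by norm_num)
  exact dyadic (Q := AllG (GF p)) (by norm_num) (by norm_num) hblock

end Pool.Agent.Q15.FE
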