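import Mathlib
import Pool.Agent.Q15.FE.Three
import Pool.Agent.TH863.D.Gcd

/-!
The first case of `a ^ m + b ^ n = c ^ k` with `gcd (m, k)` not a power of two, seen from `b`: assembly.
-/

set_option autoImplicit false

namespace Pool.Agent.Q15.FE

open Finset Real Filter Topology Pool.Agent.TH863 Pool.Agent.TH863.D Pool.Agent.Q15.SP

open Classical in
/-- the integers `b ≤ N` an even power of which is a difference of two coprime `p`-th powers, where `p` is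
an odd prime which does not divide `b` -/
noncomputable def BE (N : ℕ) : Finset ℕ :=
  (Icc 1 N).filter (fun b => ∃ x y p q : ℕ, p.Prime ∧ p ≠ 2 ∧ Nat.Coprime x y ∧
    Even q ∧ 2 ≤ q ∧ ¬ p ∣ b ∧ b ^ q + y ^ p = x ^ p)

theorem incl' {N P0 z1 : ℕ} {κ η1 : ℝ} (hN : 3 ≤ N) (hκ : 0 < κ) (hκ2 : κ ≤ 1 / 2)
    (hz1 : z1 = ⌊(N : ℝ) ^ η1⌋₊) (hP0 : 2 ≤ η1 * P0)
    (hbig : ∀ p : ℕ, 2 ^ p ≤ N ^ 2 → (p : ℝ) ^ 2 ≤ (N : ℝ) ^ η1)
    {b : ℕ} (hb : b ∈ BE N) (T : Typ N z1 P0 κ b) :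
    (∃ p ∈ Icc 3 P0, p.Prime ∧ b ∈ FQ (AllG (GF p)) N) ∨
    b ∈ DS N P0 ((N : ℝ) ^ η1) := by
  classical
  obtain ⟨hbN, x, y, p, q, hp, hp2, hxy, hqe, hq, hpb, h⟩ := Finset.mem_filter.1 hb
  have hbN' := Finset.mem_Icc.1 hbN
  obtain ⟨b1, b2, e, D⟩ := dd_of_solution hp hp2 (by omega) hxy hbN'.1 h
  have hp3 : 3 ≤ p := by
    have := hp.two_le
    omega
  have hNR : (3 : ℝ) ≤ N := by exact_mod_cast hN
  have hlogN : 1 ≤ Real.log N := by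
    rw [Real.le_log_iff_exp_le (by linarith)]
    have := Real.exp_one_lt_d9
    linarith
  have hb0 : b ≠ 0 := by omega
  have hb10 : b1 ≠ 0 := by have := D.h1; omega
  have hb20 : b2 ≠ 0 := by have := D.h2; omega
  have hfl : ∀ P : ℕ, z1 < P → (N : ℝ) ^ η1 ≤ P := by
    intro P hP
    rw [hz1] at hP
    have h1 := Nat.lt_floor_add_one ((N : ℝ) ^ η1)
    have h2 : ((⌊(N : ℝ) ^ η1⌋₊ : ℕ) : ℝ) + 1 ≤ P := by exact_mod_cast hP
    linarith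
  have hb1N : b1 ^ p ≤ N ^ 2 := D.s2.trans (Nat.pow_le_pow_left hbN'.2 2)
  rcases Nat.lt_or_ge P0 p with hpP | hpP
  · -- large `p`
    right
    obtain ⟨l, hlP, hl, hlb⟩ := T.te
    have hlb1 : l ∣ b1 := by
      rw [D.hb] at hlb
      rcases hl.dvd_mul.1 hlb with h1 | h1
      · exact h1
      · exfalso
        have h2 := D.one l hl h1
        rw [Nat.mod_eq_of_lt (by omega)] at h2
        exact hl.one_lt.ne' h2
    have hb12 : 2 ≤ b1 := hl.two_le.trans (Nat.le_of_dvd D.h1 hlb1)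
    have hpN : 2 ^ p ≤ N ^ 2 := (Nat.pow_le_pow_left hb12 p).trans hb1N
    have hp2N := hbig p hpN
    -- primes larger than `z1` dividing `b` divide `b2`
    have hone : ∀ P : ℕ, P.Prime → z1 < P → P ∣ b → P % p = 1 := by
      intro P hP hzP hPb
      rw [D.hb] at hPb
      rcases hP.dvd_mul.1 hPb with h1 | h1
      · exfalso
        have h2 : P ^ p ≤ N ^ 2 := (Nat.pow_le_pow_left (Nat.le_of_dvd D.h1 h1) p).trans hb1N
        have h3 : (N : ℝ) ^ η1 < P := by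
          rw [hz1] at hzP
          have h1 := Nat.lt_floor_add_one ((N : ℝ) ^ η1)
          have h2 : ((⌊(N : ℝ) ^ η1⌋₊ : ℕ) : ℝ) + 1 ≤ P := by exact_mod_cast hzP
          linarith
        have h4 : ((N : ℝ) ^ η1) ^ p < (P : ℝ) ^ p :=
          pow_lt_pow_left₀ h3 (by positivity) (by omega)
        have h5 : (N : ℝ) ^ 2 ≤ ((N : ℝ) ^ η1) ^ p := by
          rw [← Real.rpow_natCast ((N : ℝ) ^ η1), ← Real.rpow_mul (by linarith),
            ← Real.rpow_natCast (N : ℝ) 2]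
          apply Real.rpow_le_rpow_of_exponent_le (by linarith)
          have h6 : (P0 : ℝ) ≤ p := by exact_mod_cast hpP.le
          have h7 : 0 < η1 := by
            by_contra hc
            push Not at hc
            have : η1 * P0 ≤ 0 := mul_nonpos_of_nonpos_of_nonneg hc (Nat.cast_nonneg _)
            linarith
          push_cast
          nlinarith
        have h6 : (P : ℝ) ^ p ≤ (N : ℝ) ^ 2 := by exact_mod_cast h2
        linarith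
      · exact D.one P hP h1
    -- first prime
    obtain ⟨P, hP, hzP, hPb⟩ := large_prime_of_log hb0 dvd_rfl T.tb (by
      have := T.ta
      nlinarith)
    obtain ⟨c, hc⟩ := hPb
    have hPb : P ∣ b := ⟨c, hc⟩
    have hc0 : c ≠ 0 := by
      rintro rfl
      omega
    -- second prime
    obtain ⟨Q, hQ, hzQ, hQc⟩ := large_prime_of_log (c := c) hb0 ⟨P, by rw [hc]; ring⟩ T.tb (by
      have h1 := T.tc P hP hPb
      have h2 := T.ta
      have h3 : Real.log b = Real.log P + Real.log c := by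
        rw [hc]
        push_cast
        exact Real.log_mul (by exact_mod_cast hP.ne_zero) (by exact_mod_cast hc0)
      nlinarith)
    have hQb : Q ∣ b := by
      rw [hc]
      exact hQc.mul_left P
    have hPQ : P ≠ Q := by
      rintro rfl
      apply T.td P hP hzP
      rw [hc, sq]
      exact Nat.mul_dvd_mul_left P hQc
    exact Finset.mem_filter.2 ⟨hbN, p, hp, hpP, hp2N, P, Q, hP, hQ, hPQ, hfl P hzP, hfl Q hzQ,
      hone P hP hzP hPb, hone Q hQ hzQ hQb, hPb, hQb⟩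
  · -- small `p`
    left
    exact ⟨p, Finset.mem_Icc.2 ⟨hp3, hpP⟩, hp, mem_FQ.2 ⟨hbN', cls hp hp2 hqe (by omega) hxy hbN'.1 hpb h⟩⟩

lemma evCls {p : ℕ} (hp : p.Prime) (hp2 : p ≠ 2) {δ : ℝ} (hδ : 0 < δ) :
    ∀ᶠ N : ℕ in atTop, ((FQ (AllG (GF p)) N).card : ℝ) ≤ δ * N := by
  obtain ⟨C, hC, h⟩ := class_count hp hp2
  have h1 : Tendsto (fun N : ℕ => Real.log (N : ℝ) ^ (1 / 4 : ℝ)) atTop atTop :=
    (tendsto_rpow_atTop (by norm_num)).comp tl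
  filter_upwards [h1.eventually_ge_atTop (C / δ), eventually_ge_atTop 3] with N hN hN3
  refine (h N hN3).trans ?_
  have hlog := log_ge_one hN3
  have h2 : 0 < Real.log (N : ℝ) ^ (1 / 4 : ℝ) := Real.rpow_pos_of_pos (by linarith) _
  rw [← mul_div_assoc, div_le_iff₀ h2]
  rw [div_le_iff₀ hδ] at hN
  have : (0 : ℝ) ≤ N := Nat.cast_nonneg _
  nlinarith

theorem mainE {ε : ℝ} (hε : 0 < ε) : ∀ᶠ N : ℕ in atTop, ((BE N).card : ℝ) ≤ ε * N := by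
  classical
  -- the parameters
  obtain ⟨δ, hδd⟩ : ∃ δ : ℝ, δ = min ε 1 / 10 := ⟨_, rfl⟩
  have hδ : 0 < δ := by rw [hδd]; positivity
  have hδ1 : δ ≤ 1 / 10 := by
    rw [hδd]
    have := min_le_right ε 1
    linarith
  have hδε : 10 * δ ≤ ε := by
    rw [hδd]
    have := min_le_left ε 1
    linarith
  obtain ⟨κ, hκd⟩ : ∃ κ : ℝ, κ = δ / 8 := ⟨_, rfl⟩
  have hκ : 0 < κ := by rw [hκd]; positivity
  have hκ4 : κ ≤ 1 / 4 := by rw [hκd]; linarith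
  obtain ⟨η1, hη1d⟩ : ∃ η1 : ℝ, η1 = κ * δ / 8 := ⟨_, rfl⟩
  have hη1 : 0 < η1 := by rw [hη1d]; positivity
  have hη11 : η1 ≤ 1 := by
    rw [hη1d]
    nlinarith
  obtain ⟨m, hm⟩ := exists_nat_ge (5184 * (1 / η1) ^ 2 / δ + 2 / η1 + 3)
  obtain ⟨P0, hmP, hE⟩ := evE hδ m
  have hP0R : 5184 * (1 / η1) ^ 2 / δ + 2 / η1 + 3 ≤ (P0 : ℝ) := hm.trans (by exact_mod_cast hmP)
  have hpos1 : 0 ≤ 5184 * (1 / η1) ^ 2 / δ := by positivity
  have hpos2 : 0 ≤ 2 / η1 := by positivity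
  have hP03 : (3 : ℝ) ≤ P0 := by linarith
  have hP01 : 1 ≤ P0 := by
    have : (1 : ℝ) ≤ P0 := by linarith
    exact_mod_cast this
  have hP02 : 2 ≤ η1 * P0 := by
    have h1 : 2 / η1 ≤ P0 := by linarith
    rw [div_le_iff₀ hη1] at h1
    linarith
  have hP0J : 5184 * (1 / η1) ^ 2 / P0 ≤ δ := by
    have h1 : 5184 * (1 / η1) ^ 2 / δ ≤ P0 := by linarith
    rw [div_le_iff₀ hδ] at h1
    rw [div_le_iff₀ (by linarith)]
    linarith
  -- the exceptional sets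
  have hA := evA (κ := κ / 4) (by positivity) hδ
  have hB := evB (θ := η1) (τ := κ / 4) hη1 (by positivity) hδ (by
    rw [hη1d]
    have : κ * δ / 8 / (κ / 4) = δ / 2 := by field_simp; ring
    linarith)
  have hC := evC hκ hκ4 hδ (by rw [hκd]; linarith)
  have hD := evD hη1 hδ
  obtain ⟨I, hI⟩ : ∃ I : Finset ℕ, I = (Icc 3 P0).filter Nat.Prime := ⟨_, rfl⟩
  have hIm : ∀ p ∈ I, p.Prime ∧ p ≠ 2 := by
    intro p hp
    rw [hI] at hp
    obtain ⟨h1, h2⟩ := Finset.mem_filter.1 hp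
    have := (Finset.mem_Icc.1 h1).1
    exact ⟨h2, by omega⟩
  have hG := ev_biUnion (I := I) (E := fun p N => FQ (AllG (GF p)) N) hδ
    (fun p hp δ' hδ' => evCls (hIm p hp).1 (hIm p hp).2 hδ')
  have hJ := evJ hP01 hη1 hη11 hP0J
  have hbig := ev_big hη1
  filter_upwards [hA, hB, hC, hD, hE, hG, hJ, hbig, eventually_ge_atTop 3] with N
    hA hB hC hD hE hG hJ hbig hN
  obtain ⟨XA, hXA⟩ : ∃ X : Finset ℕ, X = (Icc 1 N).filter
    (fun b : ℕ => ¬ (1 - κ / 4) * Real.log N ≤ Real.log b) := ⟨_, rfl⟩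
  obtain ⟨XB, hXB⟩ : ∃ X : Finset ℕ, X = (Icc 1 N).filter
    (fun b : ℕ => ¬ hh ⌊(N : ℝ) ^ η1⌋₊ b ≤ κ / 4 * Real.log N) := ⟨_, rfl⟩
  obtain ⟨XC, hXC⟩ : ∃ X : Finset ℕ, X = (Icc 1 N).filter
    (fun b : ℕ => ¬ ∀ P : ℕ, P.Prime → P ∣ b → Real.log P ≤ (1 - κ) * Real.log N) := ⟨_, rfl⟩
  obtain ⟨XD, hXD⟩ : ∃ X : Finset ℕ, X = (Icc 1 N).filter
    (fun b : ℕ => ¬ ∀ P : ℕ, P.Prime → ⌊(N : ℝ) ^ η1⌋₊ < P → ¬ P ^ 2 ∣ b) := ⟨_, rfl⟩
  obtain ⟨XE, hXE⟩ : ∃ X : Finset ℕ, X = (Icc 1 N).filter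
    (fun b : ℕ => ¬ ∃ l : ℕ, l ≤ P0 ∧ l.Prime ∧ l ∣ b) := ⟨_, rfl⟩
  obtain ⟨XG, hXG⟩ : ∃ X : Finset ℕ, X = I.biUnion (fun p => FQ (AllG (GF p)) N) := ⟨_, rfl⟩
  obtain ⟨XJ, hXJ⟩ : ∃ X : Finset ℕ, X = DS N P0 ((N : ℝ) ^ η1) := ⟨_, rfl⟩
  rw [← hXA] at hA
  rw [← hXB] at hB
  rw [← hXC] at hC
  rw [← hXD] at hD
  rw [← hXE] at hE
  rw [← hXG] at hG
  rw [← hXJ] at hJ
  have hcov : BE N ⊆ XA ∪ (XB ∪ (XC ∪ (XD ∪ (XE ∪ (XG ∪ XJ))))) := by
    intro b hb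
    have hbN : b ∈ Icc 1 N := (Finset.mem_filter.1 hb).1
    by_cases tA : b ∈ XA
    · exact Finset.mem_union_left _ tA
    refine Finset.mem_union_right _ ?_
    by_cases tB : b ∈ XB
    · exact Finset.mem_union_left _ tB
    refine Finset.mem_union_right _ ?_
    by_cases tC : b ∈ XC
    · exact Finset.mem_union_left _ tC
    refine Finset.mem_union_right _ ?_
    by_cases tD : b ∈ XD
    · exact Finset.mem_union_left _ tD
    refine Finset.mem_union_right _ ?_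
    by_cases tE : b ∈ XE
    · exact Finset.mem_union_left _ tE
    refine Finset.mem_union_right _ ?_
    rw [hXA, Finset.mem_filter, not_and, not_not] at tA
    rw [hXB, Finset.mem_filter, not_and, not_not] at tB
    rw [hXC, Finset.mem_filter, not_and, not_not] at tC
    rw [hXD, Finset.mem_filter, not_and, not_not] at tD
    rw [hXE, Finset.mem_filter, not_and, not_not] at tE
    have T : Typ N ⌊(N : ℝ) ^ η1⌋₊ P0 κ b := ⟨tA hbN, tB hbN, tC hbN, tD hbN, tE hbN⟩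
    rcases incl' hN hκ (by linarith) rfl hP02 hbig hb T with ⟨p, hp, hpp, hQ⟩ | hDS
    · refine Finset.mem_union_left _ ?_
      rw [hXG, hI]
      exact Finset.mem_biUnion.2 ⟨p, Finset.mem_filter.2 ⟨hp, hpp⟩, hQ⟩
    · refine Finset.mem_union_right _ ?_
      rw [hXJ]
      exact hDS
  have h1 : ((BE N).card : ℝ) ≤ ((XA ∪ (XB ∪ (XC ∪ (XD ∪ (XE ∪ (XG ∪ XJ))))) :
    Finset ℕ).card : ℝ) := by exact_mod_cast Finset.card_le_card hcov
  have u1 := card_union3 XA (XB ∪ (XC ∪ (XD ∪ (XE ∪ (XG ∪ XJ)))))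
  have u2 := card_union3 XB (XC ∪ (XD ∪ (XE ∪ (XG ∪ XJ))))
  have u3 := card_union3 XC (XD ∪ (XE ∪ (XG ∪ XJ)))
  have u4 := card_union3 XD (XE ∪ (XG ∪ XJ))
  have u5 := card_union3 XE (XG ∪ XJ)
  have u6 := card_union3 XG XJ
  have hNε : 10 * (δ * N) ≤ ε * N := by
    have : (0 : ℝ) ≤ N := Nat.cast_nonneg _
    nlinarith
  have hδN : 0 ≤ δ * (N : ℝ) := by positivity
  linarith

/-- the first case for almost all `b` -/
theorem final {ε : ℝ} (hε : 0 < ε) : ∃ N₀ : ℕ, ∀ N : ℕ, N₀ ≤ N →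
    (({b : ℕ | 0 < b ∧ b ≤ N ∧ ∃ a c m n k p : ℕ, 0 < a ∧ 0 < c ∧ Nat.Coprime a c ∧ 2 ≤ n ∧
      p.Prime ∧ p ≠ 2 ∧ p ∣ m ∧ p ∣ k ∧ ¬ p ∣ b ∧ a ^ m + b ^ n = c ^ k}.ncard : ℕ) : ℝ) ≤
      ε * N := by
  classical
  have h1 := mainE (ε := ε / 2) (by positivity)
  have h2 := Pool.Agent.TH863.D.main (ε := ε / 2) (by positivity)
  obtain ⟨N₀, h⟩ := eventually_atTop.1 (h1.and h2)
  refine ⟨N₀, fun N hN => ?_⟩
  obtain ⟨h3, h4⟩ := h N hN
  have hsub : {b : ℕ | 0 < b ∧ b ≤ N ∧ ∃ a c m n k p : ℕ, 0 < a ∧ 0 < c ∧ Nat.Coprime a c ∧ 2 ≤ n ∧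
      p.Prime ∧ p ≠ 2 ∧ p ∣ m ∧ p ∣ k ∧ ¬ p ∣ b ∧ a ^ m + b ^ n = c ^ k} ⊆
      ((BE N ∪ BB N : Finset ℕ) : Set ℕ) := by
    rintro b ⟨hb0, hbN, a, c, m, n, k, p, ha, hc, hco, hn, hp, hp2, hpm, hpk, hpb, h⟩
    have hbI : b ∈ Icc 1 N := Finset.mem_Icc.2 ⟨hb0, hbN⟩
    rw [Finset.mem_coe, Finset.mem_union]
    rcases Nat.even_or_odd n with he | ho
    · left
      obtain ⟨m', rfl⟩ := hpm
      obtain ⟨k', rfl⟩ := hpk
      refine Finset.mem_filter.2 ⟨hbI, c ^ k', a ^ m', p, n, hp, hp2,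
        Nat.Coprime.pow _ _ hco.symm, he, hn, hpb, ?_⟩
      rw [← pow_mul, ← pow_mul, mul_comm k', mul_comm m', ← h, add_comm]
    · right
      refine mem_BB hbI ha hc hco hp hp2 hpm hpk (Or.inl ⟨ho, ?_⟩) h
      obtain ⟨j, hj⟩ := ho
      omega
  have h5 := Set.ncard_le_ncard hsub (Finset.finite_toSet _)
  rw [Set.ncard_coe_finset] at h5
  have h6 := h5.trans (Finset.card_union_le _ _)
  have h7 : (({b : ℕ | 0 < b ∧ b ≤ N ∧ ∃ a c m n k p : ℕ, 0 < a ∧ 0 < c ∧ Nat.Coprime a c ∧ 2 ≤ n ∧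
      p.Prime ∧ p ≠ 2 ∧ p ∣ m ∧ p ∣ k ∧ ¬ p ∣ b ∧ a ^ m + b ^ n = c ^ k}.ncard : ℕ) : ℝ) ≤
      (BE N).card + (BB N).card := by
    exact_mod_cast h6
  linarith

end Pool.Agent.Q15.FE
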