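import Mathlib
import Pool.Agent.Q15.FE.Main
import Pool.Agent.TH888.B1.Four

/-!
The first case of `a ^ m + b ^ n = c ^ k` with `gcd (m, k) ≥ 3`, all exponents `n ≥ 2`.
-/

set_option autoImplicit false

namespace Pool.Agent.Q15.FE

open Finset Filter Pool.Agent.TH863 Pool.Agent.TH863.D

/-- `m`, `k` have a common divisor `d ≥ 3` prime to `b` -/
theorem final2 {ε : ℝ} (hε : 0 < ε) : ∃ N₀ : ℕ, ∀ N : ℕ, N₀ ≤ N →
    (({b : ℕ | 0 < b ∧ b ≤ N ∧ ∃ a c m n k d : ℕ, 0 < a ∧ 0 < c ∧ Nat.Coprime a c ∧ 2 ≤ n ∧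
      3 ≤ d ∧ d ∣ m ∧ d ∣ k ∧ Nat.Coprime d b ∧ a ^ m + b ^ n = c ^ k}.ncard : ℕ) : ℝ) ≤
      ε * N := by
  classical
  obtain ⟨N1, h1⟩ := final (ε := ε / 2) (by positivity)
  obtain ⟨N2, h2⟩ := eventually_atTop.1 (evQ4 (δ := ε / 2) (by positivity))
  refine ⟨max N1 N2, fun N hN => ?_⟩
  have h3 := h1 N ((le_max_left _ _).trans hN)
  have h4 := h2 N ((le_max_right _ _).trans hN)
  obtain ⟨S, hS⟩ : ∃ S : Set ℕ, S = {b : ℕ | 0 < b ∧ b ≤ N ∧ ∃ a c m n k p : ℕ, 0 < a ∧ 0 < c ∧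
      Nat.Coprime a c ∧ 2 ≤ n ∧ p.Prime ∧ p ≠ 2 ∧ p ∣ m ∧ p ∣ k ∧ ¬ p ∣ b ∧
      a ^ m + b ^ n = c ^ k} := ⟨_, rfl⟩
  rw [← hS] at h3
  have hSfin : S.Finite := by
    apply (Finset.finite_toSet (Icc 1 N)).subset
    intro b hb
    rw [hS] at hb
    rw [Finset.mem_coe, Finset.mem_Icc]
    exact ⟨hb.1, hb.2.1⟩
  have hsub : {b : ℕ | 0 < b ∧ b ≤ N ∧ ∃ a c m n k d : ℕ, 0 < a ∧ 0 < c ∧ Nat.Coprime a c ∧ 2 ≤ n ∧
      3 ≤ d ∧ d ∣ m ∧ d ∣ k ∧ Nat.Coprime d b ∧ a ^ m + b ^ n = c ^ k} ⊆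
      S ∪ ((Q4 N : Finset ℕ) : Set ℕ) := by
    rintro b ⟨hb0, hbN, a, c, m, n, k, d, ha, hc, hco, hn, hd, hdm, hdk, hdb, h⟩
    have hbI : b ∈ Icc 1 N := Finset.mem_Icc.2 ⟨hb0, hbN⟩
    rcases Nat.four_dvd_or_exists_odd_prime_and_dvd_of_two_lt (show 2 < d by omega) with
      h5 | ⟨p, hp, hpd, hodd⟩
    · obtain ⟨m', rfl⟩ := h5.trans hdm
      obtain ⟨k', rfl⟩ := h5.trans hdk
      have hcop : Nat.Coprime (c ^ k') (a ^ m') := Nat.Coprime.pow _ _ hco.symm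
      have heq : b ^ n + (a ^ m') ^ 4 = (c ^ k') ^ 4 := by
        rw [← pow_mul, ← pow_mul, mul_comm k', mul_comm m', ← h, add_comm]
      rcases Nat.even_or_odd n with he | ho
      · exfalso
        obtain ⟨t, ht⟩ := he
        apply Pool.Agent.TH888.B1.nat_no_sol_four (X := c ^ k') (W := a ^ m') (Y := b ^ t)
          (Nat.pow_pos hc) (Nat.pow_pos ha) (Nat.pow_pos hb0) hcop
        rw [← heq, ht, sq, ← pow_add, add_comm]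
      · right
        obtain ⟨j, hj⟩ := ho
        exact Finset.mem_coe.2 (Finset.mem_filter.2 ⟨hbI, c ^ k', a ^ m', n, by omega,
          Nat.pow_pos ha, hcop, heq⟩)
    · left
      rw [hS]
      refine ⟨hb0, hbN, a, c, m, n, k, p, ha, hc, hco, hn, hp, ?_, hpd.trans hdm, hpd.trans hdk, ?_, h⟩
      · rintro rfl
        revert hodd
        decide
      · intro hpb
        exact hp.not_dvd_one (hdb ▸ Nat.dvd_gcd hpd hpb)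
  have h5 := Set.ncard_le_ncard hsub (hSfin.union (Finset.finite_toSet _))
  have h6 := h5.trans (Set.ncard_union_le _ _)
  rw [Set.ncard_coe_finset] at h6
  have h7 : (({b : ℕ | 0 < b ∧ b ≤ N ∧ ∃ a c m n k d : ℕ, 0 < a ∧ 0 < c ∧ Nat.Coprime a c ∧ 2 ≤ n ∧
      3 ≤ d ∧ d ∣ m ∧ d ∣ k ∧ Nat.Coprime d b ∧ a ^ m + b ^ n = c ^ k}.ncard : ℕ) : ℝ) ≤
      (S.ncard : ℝ) + (Q4 N).card := by
    exact_mod_cast h6
  linarith

/-- the sums -/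
lemma sums {ε : ℝ} (hε : 0 < ε) : ∀ᶠ N : ℕ in atTop,
    ((Pool.Agent.Q15.SP.Bases N (fun m n => 1 < Nat.gcd m n)).ncard : ℝ) ≤ ε * N := by
  obtain ⟨C, h⟩ := Pool.Agent.Q15.SP.main_all
  have h1 : Tendsto (fun N : ℕ => Real.sqrt (Real.log (N : ℝ))) atTop atTop :=
    Real.tendsto_sqrt_atTop.comp tl
  filter_upwards [h1.eventually_ge_atTop (C / ε), eventually_ge_atTop 3] with N hN hN3
  refine (h N hN3).trans ?_
  have hlog := Pool.Agent.Q15.SP.log_ge_one hN3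
  have h2 : 0 < Real.sqrt (Real.log (N : ℝ)) := Real.sqrt_pos.2 (by linarith)
  rw [← mul_div_assoc, div_le_iff₀ h2]
  rw [div_le_iff₀ hε] at hN
  have : (0 : ℝ) ≤ N := Nat.cast_nonneg _
  nlinarith

/-- both signs -/
theorem final3 {ε : ℝ} (hε : 0 < ε) : ∃ N₀ : ℕ, ∀ N : ℕ, N₀ ≤ N →
    (({b : ℕ | 0 < b ∧ b ≤ N ∧ ∃ a c m n k d : ℕ, 0 < a ∧ 0 < c ∧ Nat.Coprime a c ∧ 2 ≤ n ∧
      3 ≤ d ∧ d ∣ m ∧ d ∣ k ∧ Nat.Coprime d b ∧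
      (a ^ m + b ^ n = c ^ k ∨ a ^ m + c ^ k = b ^ n)}.ncard : ℕ) : ℝ) ≤ ε * N := by
  classical
  obtain ⟨N1, h1⟩ := final2 (ε := ε / 2) (by positivity)
  obtain ⟨N2, h2⟩ := eventually_atTop.1 (sums (ε := ε / 2) (by positivity))
  refine ⟨max N1 N2, fun N hN => ?_⟩
  have h3 := h1 N ((le_max_left _ _).trans hN)
  have h4 := h2 N ((le_max_right _ _).trans hN)
  obtain ⟨S, hS⟩ : ∃ S : Set ℕ, S = {b : ℕ | 0 < b ∧ b ≤ N ∧ ∃ a c m n k d : ℕ, 0 < a ∧ 0 < c ∧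
      Nat.Coprime a c ∧ 2 ≤ n ∧ 3 ≤ d ∧ d ∣ m ∧ d ∣ k ∧ Nat.Coprime d b ∧
      a ^ m + b ^ n = c ^ k} := ⟨_, rfl⟩
  obtain ⟨S', hS'⟩ : ∃ S' : Set ℕ, S' = Pool.Agent.Q15.SP.Bases N (fun m n => 1 < Nat.gcd m n) :=
    ⟨_, rfl⟩
  rw [← hS] at h3
  rw [← hS'] at h4
  have hfin : (S ∪ S').Finite := by
    apply (Finset.finite_toSet (Icc 1 N)).subset
    intro b hb
    rw [hS, hS'] at hb
    rw [Finset.mem_coe, Finset.mem_Icc]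
    rcases hb with hb | hb
    · exact ⟨hb.1, hb.2.1⟩
    · exact ⟨hb.1, hb.2.1⟩
  have hsub : {b : ℕ | 0 < b ∧ b ≤ N ∧ ∃ a c m n k d : ℕ, 0 < a ∧ 0 < c ∧ Nat.Coprime a c ∧ 2 ≤ n ∧
      3 ≤ d ∧ d ∣ m ∧ d ∣ k ∧ Nat.Coprime d b ∧
      (a ^ m + b ^ n = c ^ k ∨ a ^ m + c ^ k = b ^ n)} ⊆ S ∪ S' := by
    rintro b ⟨hb0, hbN, a, c, m, n, k, d, ha, hc, hco, hn, hd, hdm, hdk, hdb, h | h⟩
    · left
      rw [hS]
      exact ⟨hb0, hbN, a, c, m, n, k, d, ha, hc, hco, hn, hd, hdm, hdk, hdb, h⟩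
    · rcases Nat.eq_zero_or_pos (Nat.gcd m k) with h0 | h0
      · exfalso
        obtain ⟨hm0, hk0⟩ := Nat.gcd_eq_zero_iff.1 h0
        rw [hm0, hk0, pow_zero, pow_zero] at h
        have hb2 : b = 1 ∨ 2 ≤ b := by omega
        rcases hb2 with h5 | h5
        · rw [h5, one_pow] at h
          omega
        · have h6 : 2 ^ 2 ≤ b ^ n :=
            (Nat.pow_le_pow_right (by norm_num) hn).trans (Nat.pow_le_pow_left h5 n)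
          omega
      · right
        rw [hS']
        have h5 : d ≤ Nat.gcd m k := Nat.le_of_dvd h0 (Nat.dvd_gcd hdm hdk)
        exact ⟨hb0, hbN, a, c, m, k, n, ha, hc, by omega, hco, by
          show 1 < Nat.gcd m k
          omega, h⟩
  have h5 := Set.ncard_le_ncard hsub hfin
  have h6 := h5.trans (Set.ncard_union_le _ _)
  have h7 : (({b : ℕ | 0 < b ∧ b ≤ N ∧ ∃ a c m n k d : ℕ, 0 < a ∧ 0 < c ∧ Nat.Coprime a c ∧ 2 ≤ n ∧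
      3 ≤ d ∧ d ∣ m ∧ d ∣ k ∧ Nat.Coprime d b ∧
      (a ^ m + b ^ n = c ^ k ∨ a ^ m + c ^ k = b ^ n)}.ncard : ℕ) : ℝ) ≤
      (S.ncard : ℝ) + S'.ncard := by
    exact_mod_cast h6
  linarith

end Pool.Agent.Q15.FE
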